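import Pool.Agent.X27.Chr.AM
import Pool.Agent.X27.Chr.Add

/-!
# Navarro's inequality for principal blocks and normal subgroups up to subpolynomial factors

Let `p` be a prime and `M` a maximal ideal over `p` of the ring of all algebraic integers in `ℂ`. For `χ ∈ Irr(G)` let
`om χ g` be the scalar by which the sum of the conjugates of `g` acts. Two irreducible characters are in the same
`p`-block if and only if their `om` are congruent modulo `M`. So `kP M G` is the number `k(B_G)` of the irreducible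
characters in the principal block of `G`.

A normal subgroup `N` of `G` is given by a surjective homomorphism `f : G → H`, `N = ker f`, `H = G/N`.

Theorem. Let `P` be a class of such `(G, N)` closed under direct squares. Then `k(B_G) ≤ k(B_{G/N}) |N|_p` on `P` if and
only if for each `ε > 0` there is `C` such that `k(B_G) ≤ C |G|^ε k(B_{G/N}) |N|_p` on `P`.
-/

set_option autoImplicit false

namespace Pool.Agent.Results.MP_694c72_al.SubpolynomialError

open Pool.Agent.X27.Chr Pool.Agent.Helper884.IC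

/-- The number of the irreducible characters in the principal block of `G`. -/
noncomputable def kP (M : Ideal (integralClosure ℤ ℂ)) (G : Type) [Group G] [Fintype G] : ℕ :=
  Nat.card {chi : G → ℂ // chi ∈ Blk M (om (fun _ : G => (1 : ℂ)))}

/-- A finite group `G` with a normal subgroup `N`, given by a surjective homomorphism `f : G → H`,
`N = ker f`. -/
structure Ext where
  G : Type
  H : Type
  [grpG : Group G]
  [finG : Fintype G]
  [grpH : Group H]
  [finH : Fintype H]
  f : G →* H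
  surj : Function.Surjective f

attribute [instance] Ext.grpG Ext.finG Ext.grpH Ext.finH

/-- The direct square. -/
def Ext.sq (x : Ext) : Ext where
  G := x.G × x.G
  H := x.H × x.H
  f := x.f.prodMap x.f
  surj := x.surj.prodMap x.surj

/-- The `p`-part of the order of `N`. -/
noncomputable def Ext.np (p : ℕ) (x : Ext) : ℕ := p ^ (Nat.card x.f.ker).factorization p

theorem kP_prod (M : Ideal (integralClosure ℤ ℂ)) (G : Type) [Group G] [Fintype G] :
    kP M (G × G) = kP M G ^ 2 := by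
  have h1 : om (fun _ : G × G => (1 : ℂ)) =
      bx (om (fun _ : G => (1 : ℂ))) (om (fun _ : G => (1 : ℂ))) := by
    funext x
    have h2 : (fun _ : G × G => (1 : ℂ)) = bx (fun _ : G => (1 : ℂ)) (fun _ : G => (1 : ℂ)) := by
      funext y
      simp [bx]
    rw [h2, om_bx]
    rfl
  have ho : om (fun _ : G => (1 : ℂ)) 1 = 1 := om_one (irr_triv G)
  have hint : ∀ h : G, IsIntegral ℤ (om (fun _ : G => (1 : ℂ)) h) := fun h => om_integral (irr_triv G) h
  unfold kP
  rw [h1, pow_two, ← Nat.card_prod]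
  let F : {chi : G → ℂ // chi ∈ Blk M (om (fun _ : G => (1 : ℂ)))} ×
      {chi : G → ℂ // chi ∈ Blk M (om (fun _ : G => (1 : ℂ)))} →
      {phi : G × G → ℂ // phi ∈ Blk M (bx (om (fun _ : G => (1 : ℂ))) (om (fun _ : G => (1 : ℂ))))} :=
    fun x => ⟨bx x.1.1 x.2.1, (blk_bx ho ho hint x.1.2.1 x.2.2.1).2 ⟨x.1.2, x.2.2⟩⟩
  have hinj : Function.Injective F := by
    rintro ⟨⟨a, ha⟩, ⟨b, hb⟩⟩ ⟨⟨a', ha'⟩, ⟨b', hb'⟩⟩ h
    have h2 : bx a b = bx a' b' := congrArg Subtype.val h
    obtain ⟨rfl, rfl⟩ := bx_inj ha.1 ha'.1 hb.1 hb'.1 h2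
    rfl
  have hsurj : Function.Surjective F := by
    rintro ⟨phi, hphi⟩
    obtain ⟨chi, psi, hc, hp, rfl⟩ := irr_prod_surj hphi.1
    obtain ⟨h2, h3⟩ := (blk_bx ho ho hint hc hp).1 hphi
    exact ⟨⟨⟨chi, h2⟩, ⟨psi, h3⟩⟩, rfl⟩
  exact (Nat.card_congr (Equiv.ofBijective F ⟨hinj, hsurj⟩)).symm

theorem np_sq (p : ℕ) (x : Ext) : x.sq.np p = x.np p ^ 2 := by
  unfold Ext.np
  have h1 : Nat.card x.sq.f.ker = Nat.card x.f.ker * Nat.card x.f.ker := by
    have h2 : (x.f.prodMap x.f).ker = x.f.ker.prod x.f.ker := by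
      ext ⟨a, b⟩
      rw [Subgroup.mem_prod, MonoidHom.mem_ker, MonoidHom.mem_ker, MonoidHom.mem_ker]
      exact Prod.mk_eq_one
    change Nat.card (x.f.prodMap x.f).ker = _
    rw [h2]
    exact (Nat.card_congr (Subgroup.prodEquiv _ _).toEquiv).trans (Nat.card_prod _ _)
  rw [h1, Nat.factorization_mul Nat.card_pos.ne' Nat.card_pos.ne', ← pow_mul]
  congr 1
  rw [Finsupp.add_apply]
  ring

theorem powers (p : ℕ) (M : Ideal (integralClosure ℤ ℂ)) (P : Ext → Prop)
    (hP : ∀ x, P x → P x.sq) (x : Ext) (hx : P x) (n : ℕ) :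
    ∃ y : Ext, P y ∧ Nat.card y.G = Nat.card x.G ^ 2 ^ n ∧ kP M y.G = kP M x.G ^ 2 ^ n ∧
      kP M y.H * y.np p = (kP M x.H * x.np p) ^ 2 ^ n := by
  induction n with
  | zero => exact ⟨x, hx, by simp, by simp, by simp⟩
  | succ n ih =>
    obtain ⟨y, h1, h2, h3, h4⟩ := ih
    refine ⟨y.sq, hP y h1, ?_, ?_, ?_⟩
    · change Nat.card (y.G × y.G) = _
      rw [Nat.card_prod, h2, ← pow_two, pow_succ 2 n, pow_mul]
    · change kP M (y.G × y.G) = _
      rw [kP_prod, h3, pow_succ 2 n, pow_mul]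
    · change kP M (y.H × y.H) * y.sq.np p = _
      rw [kP_prod, np_sq, ← mul_pow, h4, pow_succ 2 n, pow_mul]

/-- **Navarro's inequality up to factors `|G|^o(1)` implies Navarro's inequality.** -/
theorem result (p : ℕ) (_ : p.Prime) (M : Ideal (integralClosure ℤ ℂ)) (_ : M.IsMaximal)
    (_ : (p : integralClosure ℤ ℂ) ∈ M) (P : Ext → Prop) (hP : ∀ x, P x → P x.sq) :
    (∀ x, P x → kP M x.G ≤ kP M x.H * x.np p) ↔ ∀ ε : ℝ, 0 < ε → ∃ C : ℝ, ∀ x, P x →
      (kP M x.G : ℝ) ≤ C * (Nat.card x.G : ℝ) ^ ε * ((kP M x.H : ℝ) * x.np p) := by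
  constructor
  · intro h ε hε
    refine ⟨1, fun x hx => ?_⟩
    have h2 : (1 : ℝ) ≤ (Nat.card x.G : ℝ) ^ ε :=
      Real.one_le_rpow (by exact_mod_cast Nat.card_pos) hε.le
    have h3 : (kP M x.G : ℝ) ≤ (kP M x.H : ℝ) * x.np p := by exact_mod_cast h x hx
    have h4 : (0 : ℝ) ≤ (kP M x.H : ℝ) * x.np p := by positivity
    nlinarith
  · intro h x hx
    refine amplify (g := Nat.card x.G) Nat.card_pos fun ε hε => ?_
    obtain ⟨C, hC⟩ := h ε hε
    refine ⟨C, fun n => ?_⟩
    obtain ⟨y, h1, h2, h3, h4⟩ := powers p M P hP x hx n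
    rw [← h2, ← h3, ← h4]
    have h5 := hC y h1
    push_cast
    exact h5

end Pool.Agent.Results.MP_694c72_al.SubpolynomialError
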